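import Mathlib
import Pool.Agent.P.MP_8ee1cf_lc.Defs

namespace Pool.Agent.P.MP_8ee1cf_lc.EB

/-- The size of a grammar: the number of rules plus the total length of the right-hand sides `α`
of the rules `A → α` and `A f → α`. -/
def size (G : Grammar) : ℕ :=
  G.2.1.length + G.2.2.1.length + G.2.2.2.length +
    (G.2.1.map fun r => r.2.length).sum + (G.2.2.2.map fun r => r.2.2.length).sum

/-- The nonterminals that occur in the right-hand side `α` of some rule `A f → α`. -/
def popNonterminals (G : Grammar) : Finset ℕ :=
  (G.2.2.2.flatMap fun r => r.2.2.filterMap Sum.getRight?).toFinset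

end Pool.Agent.P.MP_8ee1cf_lc.EB
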