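import Mathlib

/-! A length bound for controlled bad sequences and for chains of polynomial ideals. -/

namespace Pool.Agent.P.MP_8ee1cf_lc.EB

open Classical

lemma iter_ack_le (b : ℕ) (j n : ℕ) : (ack b)^[j] n ≤ ack (b + 1) (n + j) := by
  induction j with
  | zero => exact (lt_ack_right _ _).le
  | succ j ih =>
    rw [Function.iterate_succ_apply', ← add_assoc, ack_succ_succ]
    exact ack_mono_right _ ih

lemma ack_double (b u : ℕ) (hb : 1 ≤ b) (hu : 1 ≤ u) :
    ack (b + 1) (2 * u + 2) ≤ ack (b + 2) u := by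
  obtain ⟨v, rfl⟩ : ∃ v, u = v + 1 := ⟨u - 1, by omega⟩
  rw [ack_succ_succ (b + 1) v]
  apply ack_mono_right
  have h1 : ack 3 v ≤ ack (b + 1 + 1) v := ack_mono_left _ (by omega)
  rw [ack_three] at h1
  have h2 : v < 2 ^ v := Nat.lt_two_pow_self
  have h3 : 2 ^ (v + 3) = 8 * 2 ^ v := by ring
  omega

section
variable {ι σ : Type} [Fintype σ] (hd : ℕ → ι) (m : ℕ → σ → ℕ)

/-- Regions: a head and some fixed coordinates. -/
abbrev Reg (ι σ : Type) : Type := ι × (σ → Option ℕ)

/-- The term `i` of the sequence lies in a region. -/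
def InReg (r : Reg ι σ) (i : ℕ) : Prop := hd i = r.1 ∧ ∀ x v, r.2 x = some v → m i x = v

/-- The number of free coordinates. -/
noncomputable def dim (r : Reg ι σ) : ℕ := (Finset.univ.filter fun x => r.2 x = none).card

/-- The pieces of a region cut out by a point. -/
noncomputable def pieces (r : Reg ι σ) (a : σ → ℕ) : Finset (Reg ι σ) :=
  (Finset.univ.filter fun x => r.2 x = none).biUnion fun x =>
    (Finset.range (a x)).image fun v => (r.1, Function.update r.2 x (some v))

lemma card_pieces (r : Reg ι σ) (a : σ → ℕ) (F : ℕ) (ha : ∀ x, a x ≤ F) :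
    (pieces r a).card ≤ Fintype.card σ * F := by
  refine Finset.card_biUnion_le.trans ?_
  refine (Finset.sum_le_card_nsmul _ _ F fun x _ => ?_).trans ?_
  · exact Finset.card_image_le.trans (by simpa using ha x)
  · exact Nat.mul_le_mul_right _ (Finset.card_le_univ _)

lemma dim_pieces {r r' : Reg ι σ} {a : σ → ℕ} (h : r' ∈ pieces r a) : dim r' < dim r := by
  simp only [pieces, Finset.mem_biUnion, Finset.mem_filter, Finset.mem_univ, true_and,
    Finset.mem_image] at h
  obtain ⟨x, hx, v, -, rfl⟩ := h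
  apply Finset.card_lt_card
  rw [Finset.ssubset_iff_of_subset]
  · exact ⟨x, by simp [hx], by simp⟩
  · intro y hy
    simp only [Finset.mem_filter, Finset.mem_univ, true_and] at hy ⊢
    by_cases hyx : y = x
    · rw [hyx]; exact hx
    · rwa [Function.update_of_ne hyx] at hy

lemma mem_pieces {r : Reg ι σ} {i j : ℕ} (hi : InReg hd m r i) (hj : InReg hd m r j)
    (hb : ¬ m i ≤ m j) : ∃ r' ∈ pieces r (m i), InReg hd m r' j := by
  obtain ⟨x, hx⟩ := not_forall.1 hb
  have hx' : m j x < m i x := not_le.1 hx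
  have hn : r.2 x = none := by
    rcases hr : r.2 x with _ | v
    · rfl
    · have h1 := hi.2 x v hr
      have h2 := hj.2 x v hr
      omega
  refine ⟨(r.1, Function.update r.2 x (some (m j x))), ?_, hj.1, ?_⟩
  · simp only [pieces, Finset.mem_biUnion, Finset.mem_filter, Finset.mem_univ, true_and,
      Finset.mem_image, Finset.mem_range]
    exact ⟨x, hn, m j x, hx', rfl⟩
  · intro y v hy
    by_cases hyx : y = x
    · subst hyx
      simpa using hy
    · simp only [Function.update_of_ne hyx] at hy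
      exact hj.2 y v hy

lemma bad_bound (a t₀ E : ℕ) (ha : 1 ≤ a) (ht₀ : 1 ≤ t₀) (f : ℕ → ℕ) (hf : Monotone f)
    (hfa : ∀ e, t₀ ≤ e → e + 1 + Fintype.card σ * f e ≤ ack a e)
    (hm : ∀ i, t₀ ≤ i → i < E → ∀ x, m i x ≤ f i)
    (hbad : ∀ i j, t₀ ≤ i → i < j → j < E → hd i = hd j → ¬ m i ≤ m j) (k : ℕ) :
    ∀ (S : Finset (Reg ι σ)) (u t e : ℕ), (∀ r ∈ S, dim r < k) → S.card ≤ u → t₀ ≤ t → t ≤ u →
      e ≤ E → (∀ i, t ≤ i → i < e → ∃ r ∈ S, InReg hd m r i) → ack a e ≤ ack (2 * k + a) u := by
  induction k with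
  | zero =>
    intro S u t e hS _ _ htu _ hc
    have : e ≤ t := by
      by_contra hh
      obtain ⟨r, hr, -⟩ := hc t le_rfl (by omega)
      exact absurd (hS r hr) (by omega)
    simpa using this.trans htu
  | succ k ih =>
    set b := 2 * k + a with hb
    have inner : ∀ (c : ℕ) (T S : Finset (Reg ι σ)) (u t e : ℕ), T.card ≤ c →
        (∀ r ∈ T, dim r < k + 1) → (∀ r ∈ S, dim r < k) → S.card ≤ u → t₀ ≤ t → t ≤ u → e ≤ E →
        (∀ i, t ≤ i → i < e → ∃ r, (r ∈ T ∨ r ∈ S) ∧ InReg hd m r i) →
        e ≤ (ack b)^[c + 1] u := by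
      intro c
      induction c with
      | zero =>
        intro T S u t e hT _ hS hSu ht htu heE hc
        have hT0 : T = ∅ := Finset.card_eq_zero.1 (by omega)
        have := ih S u t e hS hSu ht htu heE fun i h1 h2 => by
          obtain ⟨r, hr, hi⟩ := hc i h1 h2
          exact ⟨r, hr.resolve_left (by simp [hT0]), hi⟩
        exact (lt_ack_right a e).le.trans this
      | succ c ihc =>
        intro T S u t e hT hTd hS hSu ht htu heE hc
        by_cases hall : ∀ i, t ≤ i → i < e → ∃ r ∈ S, InReg hd m r i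
        · have := ih S u t e hS hSu ht htu heE hall
          rw [Function.iterate_succ_apply]
          exact ((lt_ack_right a e).le.trans this).trans
            (Function.id_le_iterate_of_id_le (fun x => (lt_ack_right b x).le) _ _)
        · have hex : ∃ i, t ≤ i ∧ i < e ∧ ¬ ∃ r ∈ S, InReg hd m r i := by
            by_contra hh
            exact hall fun i h1 h2 => by
              by_contra h3
              exact hh ⟨i, h1, h2, h3⟩
          set τ := Nat.find hex with hτ
          obtain ⟨h1, h2, h3⟩ : t ≤ τ ∧ τ < e ∧ ¬ ∃ r ∈ S, InReg hd m r τ := Nat.find_spec hex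
          have h4 := ih S u t τ hS hSu ht htu (by omega) fun i g1 g2 => by
            by_contra g3
            exact Nat.find_min hex g2 ⟨g1, by omega, g3⟩
          obtain ⟨r, hr, hrτ⟩ := hc τ h1 h2
          have hrT : r ∈ T := hr.resolve_right fun g => h3 ⟨r, g, hrτ⟩
          have h5 : ack a (max τ u) ≤ ack b u := by
            rw [max_ack_right]
            exact max_le h4 (ack_mono_left _ (by omega))
          have h6 := hfa (max τ u) (le_max_of_le_right (ht.trans htu))
          have h7 := card_pieces r (m τ) (f (max τ u)) fun x =>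
            (hm τ (by omega) (by omega) x).trans (hf (le_max_left _ _))
          have h8 : τ ≤ max τ u := le_max_left _ _
          have h9 : u ≤ max τ u := le_max_right _ _
          rw [Function.iterate_succ_apply]
          refine ihc (T.erase r) (S ∪ pieces r (m τ)) (ack b u) (τ + 1) e ?_ ?_ ?_ ?_ (by omega)
            (by omega) heE ?_
          · rw [Finset.card_erase_of_mem hrT]; omega
          · exact fun r' hr' => hTd r' (Finset.mem_of_mem_erase hr')
          · intro r' hr'
            rcases Finset.mem_union.1 hr' with g | g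
            · exact hS r' g
            · have := dim_pieces g
              have := hTd r hrT
              omega
          · have := Finset.card_union_le S (pieces r (m τ))
            omega
          · intro i g1 g2
            obtain ⟨r', hr', hi⟩ := hc i (by omega) g2
            by_cases hrr : r' = r
            · subst hrr
              obtain ⟨r'', g3, g4⟩ := mem_pieces hd m hrτ hi
                (hbad τ i (by omega) (by omega) (by omega) (hrτ.1.trans hi.1.symm))
              exact ⟨r'', Or.inr (Finset.mem_union_right _ g3), g4⟩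
            · exact ⟨r', hr'.imp (fun g => Finset.mem_erase.2 ⟨hrr, g⟩)
                (Finset.mem_union_left _), hi⟩
    intro S u t e hS hSu ht htu heE hc
    have h1 := inner u S ∅ u t e hSu hS (by simp) (by simp) ht htu heE fun i g1 g2 => by
      obtain ⟨r, hr, hi⟩ := hc i g1 g2
      exact ⟨r, Or.inl hr, hi⟩
    have h2 := h1.trans (iter_ack_le b (u + 1) u)
    calc ack a e ≤ ack b (ack (b + 1) (2 * u + 1)) :=
          ack_le_ack (by omega) (by rwa [show 2 * u + 1 = u + (u + 1) by ring])
      _ = ack (b + 1) (2 * u + 2) := (ack_succ_succ _ _).symm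
      _ ≤ ack (b + 2) u := ack_double b u (by omega) (by omega)
      _ = ack (2 * (k + 1) + a) u := by rw [hb]; congr 1; ring

end

open MvPolynomial MonomialOrder in
lemma exists_reduced {σ : Type} [Fintype σ] [LinearOrder σ] (I : Ideal (MvPolynomial σ ℚ))
    (p : MvPolynomial σ ℚ) (hp : p ∉ I) : ∃ r, r ≠ 0 ∧ p - r ∈ I ∧
      (∀ x, degLex.degree r x ≤ p.totalDegree) ∧
      ∀ q ∈ I, q ≠ 0 → ¬ degLex.degree q ≤ degLex.degree r := by
  obtain ⟨g, r, h1, h2, h3⟩ := degLex.div_set (B := {q | q ∈ I ∧ q ≠ 0})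
    (fun b hb => (leadingCoeff_ne_zero_iff.2 hb.2).isUnit) p
  have hI : p - r ∈ I := by
    rw [h1, add_sub_cancel_right, Finsupp.linearCombination_apply, Finsupp.sum]
    exact Ideal.sum_mem _ fun b _ => I.mul_mem_left _ b.2.1
  have hr : r ≠ 0 := by
    rintro rfl
    exact hp (by simpa using hI)
  refine ⟨r, hr, hI, fun x => ?_, fun q hq hq0 => h3 _ (degLex.degree_mem_support hr) q ⟨hq, hq0⟩⟩
  have hd : degLex.degree r ≼[degLex] degLex.degree p := by
    have e : r = p - Finsupp.linearCombination _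
        (fun b : {q | q ∈ I ∧ q ≠ 0} => (b : MvPolynomial σ ℚ)) g := by
      rw [eq_sub_iff_add_eq, add_comm]; exact h1.symm
    rw [e]
    refine degree_sub_le.trans (sup_le le_rfl ?_)
    rw [Finsupp.linearCombination_apply, Finsupp.sum]
    refine degree_sum_le.trans (Finset.sup_le fun b _ => ?_)
    rw [smul_eq_mul, mul_comm]
    exact h2 b
  have := degLex_totalDegree_monotone hd
  rw [← degree_degLexDegree] at this
  exact (Finsupp.le_degree x _).trans this

open MvPolynomial MonomialOrder in
lemma chain_bound {ι σ : Type} [Fintype σ] (H : Finset ι) (P : ℕ → ι → Set (MvPolynomial σ ℚ))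
    (hmono : ∀ n h, P n h ⊆ P (n + 1) h) (a u : ℕ) (ha : 1 ≤ a) (hu : 1 ≤ u) (hH : H.card ≤ u)
    (f : ℕ → ℕ) (hf : Monotone f)
    (hfa : ∀ e, u ≤ e → e + 1 + Fintype.card σ * f e ≤ ack a e)
    (hdeg : ∀ n h, ∀ p ∈ P (n + 1) h, p.totalDegree ≤ f (n + u)) :
    ∃ n, ack a (n + u) ≤ ack (2 * (Fintype.card σ + 1) + a) u ∧
      ∀ h ∈ H, P (n + 1) h ⊆ Ideal.span (P n h) := by
  let _ : LinearOrder σ := LinearOrder.lift' (Fintype.equivFin σ) (Fintype.equivFin σ).injective
  by_contra hcon
  push Not at hcon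
  set B := ack (2 * (Fintype.card σ + 1) + a) u with hB
  have hex : ∃ e, B < ack a e := ⟨B, lt_ack_right _ _⟩
  set E := Nat.find hex with hE
  have hstep : ∀ i, u ≤ i → i < E → ∃ h ∈ H, ∃ r : MvPolynomial σ ℚ, r ≠ 0 ∧
      r ∈ Ideal.span (P (i - u + 1) h) ∧ (∀ x, degLex.degree r x ≤ f i) ∧
      ∀ q ∈ Ideal.span (P (i - u) h), q ≠ 0 → ¬ degLex.degree q ≤ degLex.degree r := by
    intro i h1 h2
    have h3 := Nat.find_min hex h2
    obtain ⟨h, hh, h4⟩ := hcon (i - u) (by rw [Nat.sub_add_cancel h1]; omega)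
    obtain ⟨p, hp, hp'⟩ := Set.not_subset.1 h4
    obtain ⟨r, g1, g2, g3, g4⟩ := exists_reduced _ p hp'
    refine ⟨h, hh, r, g1, ?_, fun x => (g3 x).trans ?_, g4⟩
    · have := Ideal.sub_mem _ (Ideal.subset_span hp) (Ideal.span_mono (hmono _ h) g2)
      simpa using this
    · simpa [Nat.sub_add_cancel h1] using hdeg _ h p hp
  have huE : u < E := by
    by_contra hh
    have h1 : B < ack a E := Nat.find_spec hex
    have h2 : ack a E ≤ B := ack_le_ack (by omega) (by omega)
    omega
  obtain ⟨h₀, -, -⟩ := hstep u le_rfl huE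
  have : Nonempty ι := ⟨h₀⟩
  choose! hd hdH r hr0 hrI hrf hrq using hstep
  have hm : ∀ h, Monotone fun n => P n h := fun h => monotone_nat_of_le_succ fun n => hmono n h
  have := bad_bound hd (fun i x => degLex.degree (r i) x) a u E ha hu f hf hfa hrf
    (fun i j g1 g2 g3 g4 => by
      refine hrq j (by omega) g3 (r i) ?_ (hr0 i g1 (by omega))
      rw [← g4]
      exact Ideal.span_mono (hm (hd i) (by omega : i - u + 1 ≤ j - u)) (hrI i g1 (by omega)))
    (Fintype.card σ + 1) (H.image fun h => (h, fun _ => none)) u u E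
    (fun r _ => Nat.lt_succ_of_le (Finset.card_le_univ _)) (Finset.card_image_le.trans hH)
    le_rfl le_rfl le_rfl
    (fun i g1 g2 => ⟨_, Finset.mem_image_of_mem _ (hdH i g1 g2), rfl, by simp⟩)
  have h1 : B < ack a E := Nat.find_spec hex
  omega

end Pool.Agent.P.MP_8ee1cf_lc.EB
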