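import Mathlib
import Pool.Agent.P.MP_8ee1cf_lc.Main
import Pool.Agent.P.MP_8ee1cf_lc.EB.Defs
import Pool.Agent.P.MP_8ee1cf_lc.EB.Dick

/-! An explicit length bound for test sets of indexed languages. -/

namespace Pool.Agent.P.MP_8ee1cf_lc.EB

open Submodule

section sem
variable (ρ : ℕ → Mat)

/-- The matrices of the letters with copy numbers. -/
def muOf (m : ℕ → Pos → Mat) (x : Sym') : Mat := Sum.elim ρ (fun B => m B x.2) x.1

/-- Every functional that kills the words of `T` kills the words of `T'`. -/
def Closed (T T' : Tab) : Prop :=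
  ∀ (m : ℕ → Pos → Mat) (l : Module.Dual ℚ Mat) (h : Head),
    (∀ w ∈ getT T h, ∀ w' ∈ osub chP w, l (w'.map (muOf ρ m)).prod = 0) →
      ∀ w ∈ getT T' h, ∀ w' ∈ osub chP w, l (w'.map (muOf ρ m)).prod = 0

lemma exists_mu' (U : ℕ → Submodule ℚ Mat) : ∃ m : ℕ → Pos → Mat, ∀ w : List Sym,
    wordSem ρ U w = ((osub chP w).map fun w' => span ℚ {(w'.map (muOf ρ m)).prod}).sum := by
  choose m hm using fun B => exists_spanning (U B)
  refine ⟨m, fun w => ?_⟩
  simp only [← prod_span_singleton]
  rw [osub_sem, wordSem]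
  congr 1
  apply List.map_congr_left
  intro x _
  cases x with
  | inl t => simp [chP, symSem, muOf]
  | inr B => simp [chP, symSem, muOf, ← hm B, Function.comp_def]

lemma closed_sem' {T T' : Tab} (hcl : Closed ρ T T')
    (U : ℕ → Submodule ℚ Mat) {h : Head} {w : List Sym} (hw : (h, w) ∈ T') :
    wordSem ρ U w ≤ setSem ρ U (getT T h) := by
  obtain ⟨m, hμ⟩ := exists_mu' ρ U
  rw [hμ w]
  refine sum_le_of_forall _ _ fun w' hw' => ?_
  rw [span_le, Set.singleton_subset_iff, SetLike.mem_coe,
    ← Subspace.forall_mem_dualAnnihilator_apply_eq_zero_iff]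
  intro l hl
  rw [Submodule.mem_dualAnnihilator] at hl
  refine hcl m l h (fun v hv v' hv' => hl _ ?_) w (mem_getT.2 hw) w' hw'
  have h2 : wordSem ρ U v ≤ setSem ρ U (getT T h) := le_sum_of_mem _ _ hv
  have h3 : span ℚ {(v'.map (muOf ρ m)).prod} ≤ wordSem ρ U v := by
    rw [hμ]
    exact le_sum_of_mem (osub chP v) (fun w' => span ℚ {(w'.map (muOf ρ m)).prod}) hv'
  exact h2 (h3 (mem_span_singleton_self _))

lemma step_le' {G : Grammar} {T : Tab} (hcl : Closed ρ T (phi G T))
    {γ γ' : Form} (h : Step G γ γ') : formSem ρ G T γ' ≤ formSem ρ G T γ := by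
  cases h with
  | plain u v A σ α hr =>
    simp only [formSem_append, formSem_single, formSem_attach]
    gcongr
    rcases stackSem_cases ρ G T σ with h | ⟨o, ho, U, hU⟩
    · rw [h]; exact le_top
    · rw [hU, ← setSem_osub]
      refine sum_le_of_forall _ _ fun w hw => closed_sem' ρ hcl U ?_
      simp only [phi, List.mem_append]
      left; left
      simp only [phi1, List.mem_flatMap, List.mem_map]
      exact ⟨o, ho, (A, α), hr, w, hw, rfl⟩
  | push u v A B f σ hr =>
    simp only [formSem_append, formSem_single]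
    gcongr
    have hf : some f ∈ idx G :=
      List.mem_cons_of_mem _ (List.mem_map.2 ⟨(A, B, f), hr, rfl⟩)
    rcases stackSem_cases ρ G T σ with h | ⟨o, ho, U, hU⟩
    · rw [h]; exact le_top
    · simp only [stackSem, if_pos hf]
      rw [hU]
      refine sum_le_of_forall _ _ fun x hx => ?_
      rw [← setSem_osub]
      refine sum_le_of_forall _ _ fun w hw => closed_sem' ρ hcl U ?_
      simp only [phi, List.mem_append]
      left; right
      simp only [phi2, List.mem_flatMap, List.mem_map]
      exact ⟨o, ho, (A, B, f), hr, x, hx, w, hw, rfl⟩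
  | pop u v A f σ α hr =>
    simp only [formSem_append, formSem_single, formSem_attach]
    gcongr
    simp only [stackSem]
    split_ifs with hf
    · refine closed_sem' ρ hcl _ ?_
      simp only [phi, List.mem_append]
      right
      simp only [phi3, List.mem_map]
      exact ⟨(A, f, α), hr, rfl⟩
    · exact le_top

lemma language_sem' {G : Grammar} {T : Tab} (hcl : Closed ρ T (phi G T))
    {w : List ℕ} (hw : w ∈ language G) :
    (w.map ρ).prod ∈ setSem ρ (fun _ => ⊥) (getT T (none, G.1)) := by
  have key : ∀ γ, Relation.ReflTransGen (Step G) [Sum.inr (G.1, [])] γ →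
      formSem ρ G T γ ≤ formSem ρ G T [Sum.inr (G.1, [])] := by
    intro γ h
    induction h with
    | refl => exact le_rfl
    | tail _ hs ih => exact (step_le' ρ hcl hs).trans ih
  have h1 := key _ hw
  rw [formSem_single] at h1
  apply h1
  unfold formSem
  rw [List.map_map]
  have : (Sum.elim (fun t => span ℚ {ρ t}) (fun p : ℕ × List ℕ => stackSem ρ G T p.2 p.1) ∘
    Sum.inl) = fun t => span ℚ {ρ t} := rfl
  rw [this, prod_span_singleton]
  exact mem_span_singleton_self _

/-- The variables. -/
abbrev Vr (K : Finset ℕ) : Type := Pos ⊕ (K × Pos × Pos)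

/-- The generic matrix of a letter. -/
noncomputable def gen (K : Finset ℕ) (x : Sym') :
    Matrix (Fin 3) (Fin 3) (MvPolynomial (Vr K) ℚ) :=
  Sum.elim (fun t => (ρ t).map MvPolynomial.C)
    (fun B => if hB : B ∈ K then
      Matrix.of fun i j => MvPolynomial.X (Sum.inr (⟨B, hB⟩, x.2, (i, j))) else 0) x.1

/-- The generic functional applied to the generic product. -/
noncomputable def poly (K : Finset ℕ) (w : List Sym') : MvPolynomial (Vr K) ℚ :=
  ∑ j, ∑ i, MvPolynomial.X (Sum.inl (i, j)) * (w.map (gen ρ K)).prod i j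

lemma deg_gen (K : Finset ℕ) (x : Sym') (i j : Fin 3) : (gen ρ K x i j).totalDegree ≤ 1 := by
  obtain ⟨x, c⟩ := x
  cases x with
  | inl t => simp [gen]
  | inr B =>
    by_cases hB : B ∈ K
    · simp [gen, hB]
    · simp [gen, hB]

lemma deg_prod (K : Finset ℕ) (w : List Sym') (i j : Fin 3) :
    ((w.map (gen ρ K)).prod i j).totalDegree ≤ w.length := by
  induction w generalizing i with
  | nil =>
    simp only [List.map_nil, List.prod_nil, Matrix.one_apply]
    split_ifs <;> simp
  | cons x w ih =>
    rw [List.map_cons, List.prod_cons, Matrix.mul_apply, List.length_cons]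
    refine MvPolynomial.totalDegree_finsetSum_le fun k _ => ?_
    have h1 := deg_gen ρ K x i k
    have h2 := ih k
    have h3 := MvPolynomial.totalDegree_mul (gen ρ K x i k) ((w.map (gen ρ K)).prod k j)
    omega

lemma deg_poly (K : Finset ℕ) (w : List Sym') : (poly ρ K w).totalDegree ≤ w.length + 1 := by
  refine MvPolynomial.totalDegree_finsetSum_le fun j _ =>
    MvPolynomial.totalDegree_finsetSum_le fun i _ => ?_
  have h2 := deg_prod ρ K w i j
  have h3 := MvPolynomial.totalDegree_mul (MvPolynomial.X (Sum.inl (i, j)))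
    ((w.map (gen ρ K)).prod i j)
  rw [MvPolynomial.totalDegree_X] at h3
  omega

/-- The point given by matrices and a functional. -/
def pt (K : Finset ℕ) (m : ℕ → Pos → Mat) (l : Module.Dual ℚ Mat) (v : Vr K) : ℚ :=
  Sum.elim (fun ij => l (Matrix.single ij.1 ij.2 1)) (fun z => m z.1 z.2.1 z.2.2.1 z.2.2.2) v

lemma eval_poly (K : Finset ℕ) (m : ℕ → Pos → Mat) (l : Module.Dual ℚ Mat) (w : List Sym')
    (hw : ∀ x ∈ w, ∀ B, x.1 = Sum.inr B → B ∈ K) :
    MvPolynomial.eval (pt K m l) (poly ρ K w) = l (w.map (muOf ρ m)).prod := by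
  have h1 : (MvPolynomial.eval (pt K m l)).mapMatrix (w.map (gen ρ K)).prod =
      (w.map (muOf ρ m)).prod := by
    rw [map_list_prod, List.map_map]
    congr 1
    apply List.map_congr_left
    rintro ⟨x, c⟩ hx
    ext i j
    cases x with
    | inl t => simp [gen, muOf]
    | inr B => simp [gen, muOf, hw _ hx B rfl, pt]
  rw [dual_apply, ← h1]
  simp [poly, pt]

end sem

lemma osub_length {β γ : Type} {ch : β → List (List γ)} {α : List β} {w : List γ} (L : ℕ)
    (hw : w ∈ osub ch α) (hL : ∀ x ∈ α, ∀ u ∈ ch x, u.length ≤ L) : w.length ≤ α.length * L := by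
  induction α generalizing w with
  | nil =>
    simp only [osub_nil, List.mem_singleton] at hw
    subst hw; simp
  | cons x α ih =>
    obtain ⟨u, hu, w', hw', rfl⟩ := mem_osub_cons.1 hw
    have h1 := hL x List.mem_cons_self u hu
    have h2 := ih hw' fun y hy => hL y (List.mem_cons_of_mem _ hy)
    rw [List.length_append, List.length_cons, add_mul]
    omega

lemma chT_length {T : Tab} {L : ℕ} (h1 : 1 ≤ L) (hT : ∀ e ∈ T, e.2.length ≤ L) (o : Option ℕ)
    (x : Sym) : ∀ u ∈ chT T o x, u.length ≤ L := by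
  intro u hu
  cases x with
  | inl t =>
    simp only [chT, List.mem_singleton] at hu
    subst hu; simpa using h1
  | inr B => exact hT _ (mem_getT.1 hu)

lemma tab_length (G : Grammar) (n : ℕ) :
    ∀ e ∈ tab G n, e.2.length ≤ (size G + 2) ^ 2 ^ n := by
  induction n with
  | zero => simp [tab]
  | succ n ih =>
    intro e he
    have h1 : size G + 2 ≤ (size G + 2) ^ 2 ^ n := Nat.le_self_pow (by positivity) _
    have h2 : (size G + 2) ^ 2 ^ (n + 1) = (size G + 2) ^ 2 ^ n * (size G + 2) ^ 2 ^ n := by
      rw [← pow_add, pow_succ, mul_two]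
    set L := (size G + 2) ^ 2 ^ n with hL
    have h3 : L ≤ L * L := Nat.le_mul_self L
    rw [h2]
    rw [tab_succ, List.mem_append] at he
    rcases he with he | he
    · exact (ih e he).trans h3
    rcases mem_phi he with ⟨o, -, r, hr, w, hw, rfl⟩ | ⟨o, -, r, hr, x, hx, w, hw, rfl⟩ |
      ⟨r, hr, rfl⟩
    · refine (osub_length L hw fun x _ => chT_length (by omega) ih o x).trans
        (Nat.mul_le_mul_right _ ?_)
      have := List.single_le_sum (l := G.2.1.map fun r => r.2.length) (by simp) _
        (List.mem_map_of_mem hr)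
      unfold size at h1
      omega
    · exact (osub_length L hw fun x _ => chT_length (by omega) ih o x).trans
        (Nat.mul_le_mul_right _ (ih _ (mem_getT.1 hx)))
    · have := List.single_le_sum (l := G.2.2.2.map fun r => r.2.2.length) (by simp) _
        (List.mem_map_of_mem hr)
      unfold size at h1
      change r.2.2.length ≤ _
      omega

lemma osub_pop {G : Grammar} {T : Tab}
    (hT : ∀ e ∈ T, ∀ B, Sum.inr B ∈ e.2 → B ∈ popNonterminals G) {o : Option ℕ}
    {α w : List Sym} (hw : w ∈ osub (chT T o) α) :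
    ∀ B, Sum.inr B ∈ w → B ∈ popNonterminals G := by
  intro B hB
  obtain ⟨x, -, u, hu, hyu⟩ := osub_letters hw _ hB
  cases x with
  | inl t =>
    simp only [chT, List.mem_singleton] at hu
    subst hu
    simp at hyu
  | inr C => exact hT _ (mem_getT.1 hu) B hyu

lemma tab_pop (G : Grammar) (n : ℕ) :
    ∀ e ∈ tab G n, ∀ B, Sum.inr B ∈ e.2 → B ∈ popNonterminals G := by
  induction n with
  | zero => simp [tab]
  | succ n ih =>
    intro e he
    rw [tab_succ, List.mem_append] at he
    rcases he with he | he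
    · exact ih e he
    rcases mem_phi he with ⟨o, -, r, hr, w, hw, rfl⟩ | ⟨o, -, r, hr, x, hx, w, hw, rfl⟩ |
      ⟨r, hr, rfl⟩
    · exact osub_pop ih hw
    · exact osub_pop ih hw
    · intro B hB
      simp only [popNonterminals, List.mem_toFinset, List.mem_flatMap, List.mem_filterMap]
      exact ⟨r, hr, _, hB, rfl⟩

lemma card_pop (G : Grammar) : (popNonterminals G).card ≤ size G := by
  refine (List.toFinset_card_le _).trans ?_
  rw [List.length_flatMap]
  refine (List.sum_le_sum fun r _ => List.length_filterMap_le _ _).trans ?_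
  unfold size
  omega

lemma card_heads (G : Grammar) : (heads G).toFinset.card ≤ (size G + 2 + 1) ^ 2 := by
  refine (List.toFinset_card_le _).trans ?_
  simp only [heads, idx, List.length_append, List.length_flatMap, List.length_map,
    List.map_const', List.sum_replicate, List.length_cons, smul_eq_mul]
  have h : G.2.1.length + G.2.2.1.length + G.2.2.2.length ≤ size G := by
    unfold size; omega
  set a := G.2.1.length
  set b := G.2.2.1.length
  set c := G.2.2.2.length
  set s := size G
  nlinarith [Nat.mul_le_mul (show b + 1 ≤ s + 1 by omega) (show a + b ≤ s by omega)]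

lemma control (N e : ℕ) (hN : N ≤ 90 * e) : e + 1 + N * (e ^ 2 ^ e + 1) ≤ ack 7 e := by
  have h1 : ack 3 (ack 3 (ack 2 e)) ≤ ack 7 e :=
    (ack_mono_right 3 (ack_ack_lt_ack_max_add_two 3 2 e).le).trans
      (ack_ack_lt_ack_max_add_two 3 _ e).le
  refine le_trans ?_ h1
  rw [ack_two, ack_three (2 * e + 3), ack_three]
  have hE : e < 2 ^ e := Nat.lt_two_pow_self
  have h2 : 2 ^ (2 * e + 3 + 3) = 64 * (2 ^ e * 2 ^ e) := by ring
  set E := 2 ^ e with hEd
  have h3 : E ≤ E * E := Nat.le_mul_self E
  rw [h2, Nat.sub_add_cancel (by omega)]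
  have h4 : e ^ E ≤ 2 ^ (E * E) := by
    calc e ^ E ≤ (2 ^ E) ^ E :=
          Nat.pow_le_pow_left ((hE.trans Nat.lt_two_pow_self).le) _
      _ = 2 ^ (E * E) := by rw [← pow_mul]
  have h5 : E ≤ 2 ^ (E * E) := h3.trans Nat.lt_two_pow_self.le
  have h6 : 2 ^ 8 * (2 ^ (E * E) * 2 ^ (E * E)) ≤ 2 ^ (64 * (E * E)) := by
    rw [← pow_add, ← pow_add]
    exact Nat.pow_le_pow_right (by norm_num) (by omega)
  set Y := 2 ^ (E * E)
  have h7 : N * (e ^ E + 1) ≤ (90 * Y) * (Y + Y) := Nat.mul_le_mul (by omega) (by omega)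
  have h8 : Y ≤ Y * Y := Nat.le_mul_self Y
  have h9 : (90 * Y) * (Y + Y) = 180 * (Y * Y) := by ring
  omega

lemma exists_closed (ρ : ℕ → Mat) (G : Grammar) : ∃ n, Closed ρ (tab G n) (phi G (tab G n)) ∧
    (size G + 2) ^ 2 ^ n ≤ ack (162 * (popNonterminals G).card + 33) (size G) := by
  set K := popNonterminals G with hK
  set u := (size G + 2 + 1) ^ 2 with hu
  have hsu : size G + 2 ≤ u := by nlinarith
  have hcard : Fintype.card (Vr K) = 9 + 81 * K.card := by simp [Vr, Pos]; ring
  have hpow : ∀ n, (size G + 2) ^ 2 ^ (n + 1) ≤ (n + u) ^ 2 ^ (n + u) := fun n =>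
    (Nat.pow_le_pow_left (by omega) _).trans (Nat.pow_le_pow_right (by omega)
      (Nat.pow_le_pow_right (by norm_num) (by omega)))
  have hfa : ∀ e, u ≤ e → e + 1 + Fintype.card (Vr K) * (e ^ 2 ^ e + 1) ≤ ack 7 e := by
    intro e he
    have : K.card ≤ size G := card_pop G
    exact control _ e (by omega)
  have hlen : ∀ w : List Sym, ∀ w' ∈ osub chP w, w'.length ≤ w.length := by
    intro w w' hw'
    simpa using osub_length 1 hw' fun x _ v hv => by
      cases x with
      | inl t =>
        simp only [chP, List.mem_singleton] at hv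
        subst hv; simp
      | inr B =>
        simp only [chP, List.mem_map] at hv
        obtain ⟨ij, -, rfl⟩ := hv
        simp
  obtain ⟨n, h1, h2⟩ := chain_bound (heads G).toFinset
    (fun n h => {p | ∃ w ∈ getT (tab G n) h, ∃ w' ∈ osub chP w, p = poly ρ K w'})
    (by
      rintro n h _ ⟨w, hw, w', hw', rfl⟩
      refine ⟨w, mem_getT.2 ?_, w', hw', rfl⟩
      rw [tab_succ]
      exact List.mem_append_left _ (mem_getT.1 hw))
    7 u (by norm_num) (by omega) (card_heads G) (fun e => e ^ 2 ^ e + 1)
    (by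
      intro a b hab
      rcases Nat.eq_zero_or_pos b with rfl | hb
      · rw [Nat.le_zero.1 hab]
      · exact Nat.succ_le_succ ((Nat.pow_le_pow_left hab _).trans
          (Nat.pow_le_pow_right hb (Nat.pow_le_pow_right (by norm_num) hab))))
    hfa
    (by
      rintro n h _ ⟨w, hw, w', hw', rfl⟩
      have g1 := deg_poly ρ K w'
      have g2 := hlen w w' hw'
      have g3 := tab_length G (n + 1) _ (mem_getT.1 hw)
      have g4 := hpow n
      simp only at g3 ⊢
      omega)
  refine ⟨n, ?_, ?_⟩
  · have hev : ∀ k h m l, ∀ w ∈ getT (tab G k) h, ∀ w' ∈ osub chP w,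
        MvPolynomial.eval (pt K m l) (poly ρ K w') = l (w'.map (muOf ρ m)).prod := by
      intro k h m l w hw w' hw'
      refine eval_poly ρ K m l w' fun y hy B hB => ?_
      obtain ⟨x, hx, v, hv, hyv⟩ := osub_letters hw' y hy
      rw [chP_fst hv y hyv] at hB
      exact tab_pop G k _ (mem_getT.1 hw) B (hB ▸ hx)
    intro m l h H w hw w' hw'
    have g1 : w ∈ getT (tab G (n + 1)) h := by
      rw [mem_getT, tab_succ]
      exact List.mem_append_right _ (mem_getT.1 hw)
    have g2 := h2 h (List.mem_toFinset.2 (good_tab G _ _ (mem_getT.1 g1)).1) ⟨w, g1, w', hw', rfl⟩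
    rw [← hev _ h m l w g1 w' hw', ← RingHom.mem_ker]
    refine Ideal.span_le.2 ?_ g2
    rintro _ ⟨v, hv, v', hv', rfl⟩
    rw [SetLike.mem_coe, RingHom.mem_ker, hev _ h m l v hv v' hv']
    exact H v hv v' hv'
  · have g1 := hfa (n + u) (by omega)
    have g2 : (size G + 2) ^ 2 ^ n ≤ (size G + 2) ^ 2 ^ (n + 1) :=
      Nat.pow_le_pow_right (by omega) (Nat.pow_le_pow_right (by norm_num) (by omega))
    have g3 := hpow n
    have g4 : (n + u) ^ 2 ^ (n + u) + 1 ≤ Fintype.card (Vr K) * ((n + u) ^ 2 ^ (n + u) + 1) :=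
      Nat.le_mul_of_pos_left _ (by omega)
    have g5 := ack_add_one_sq_lt_ack_add_four (2 * (Fintype.card (Vr K) + 1) + 7) (size G + 2)
    have g6 : ack _ (size G + 2) ≤ _ :=
      ack_succ_right_le_ack_succ_left (2 * (Fintype.card (Vr K) + 1) + 7 + 4) (size G + 1)
    have g7 := ack_succ_right_le_ack_succ_left (2 * (Fintype.card (Vr K) + 1) + 7 + 4 + 1) (size G)
    have g8 : 2 * (Fintype.card (Vr K) + 1) + 7 + 4 + 1 + 1 = 162 * K.card + 33 := by omega
    rw [g8] at g7
    rw [← hu] at g5
    omega

lemma nat_bound (G : Grammar) (g h : ℕ → List ℕ)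
    (hF : ∀ w ∈ language G, w.length ≤ ack (162 * (popNonterminals G).card + 33) (size G) →
      w.flatMap g = w.flatMap h)
    {w : List ℕ} (hw : w ∈ language G) : w.flatMap g = w.flatMap h := by
  set ρ : ℕ → Mat := fun t => pairMat (g t) (h t) with hρ
  obtain ⟨n, hcl, hn⟩ := exists_closed ρ G
  have h1 := language_sem' ρ hcl hw
  have h2 : setSem ρ (fun _ => ⊥) (getT (tab G n) (none, G.1)) ≤ LinearMap.ker cmp := by
    refine sum_le_of_forall _ _ fun x hx => ?_
    have hv := (valid_tab G n _ (mem_getT.1 hx)).2 rfl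
    obtain ⟨y, rfl⟩ : ∃ y : List ℕ, x = y.map Sum.inl := by
      refine ⟨x.map (Sum.elim id id), ?_⟩
      rw [List.map_map]
      conv_lhs => rw [← List.map_id x]
      apply List.map_congr_left
      intro z hz
      obtain ⟨t, rfl⟩ := hv z hz
      rfl
    unfold wordSem
    rw [List.map_map]
    have : (symSem ρ (fun _ => ⊥) ∘ Sum.inl) = fun t => span ℚ {ρ t} := rfl
    rw [this, prod_span_singleton, span_le, Set.singleton_subset_iff, SetLike.mem_coe,
      LinearMap.mem_ker, hρ, prod_pairMat, cmp_pairMat]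
    refine hF y (outp_subset (mem_outp.2 hx)) (le_trans ?_ hn)
    simpa using tab_length G n _ (mem_getT.1 hx)
  have h3 := h2 h1
  rwa [LinearMap.mem_ker, hρ, prod_pairMat, cmp_pairMat] at h3

theorem explicit_bound (G : Grammar) (Δ : Type) (g h : FreeMonoid ℕ →* FreeMonoid Δ)
    (hF : ∀ w ∈ language G, w.length ≤ ack (162 * (popNonterminals G).card + 33) (size G) →
      g (FreeMonoid.ofList w) = h (FreeMonoid.ofList w)) :
    ∀ w ∈ language G, g (FreeMonoid.ofList w) = h (FreeMonoid.ofList w) := by
  classical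
  intro w hw
  set D : List Δ := FreeMonoid.toList (g (FreeMonoid.ofList w)) ++
    FreeMonoid.toList (h (FreeMonoid.ofList w)) with hD
  set c : Δ → ℕ := fun d => D.idxOf d with hc
  have hmap : ∀ (k : FreeMonoid ℕ →* FreeMonoid Δ) (x : List ℕ),
      x.flatMap (fun t => (FreeMonoid.toList (k (FreeMonoid.of t))).map c) =
        (FreeMonoid.toList (k (FreeMonoid.ofList x))).map c := by
    intro k x
    rw [toList_hom, List.map_flatMap]
  have := nat_bound G (fun t => (FreeMonoid.toList (g (FreeMonoid.of t))).map c)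
    (fun t => (FreeMonoid.toList (h (FreeMonoid.of t))).map c)
    (fun x hx hl => by rw [hmap, hmap, hF x hx hl]) hw
  rw [hmap, hmap] at this
  apply FreeMonoid.toList.injective
  have hinj : ∀ a ∈ D, ∀ b ∈ D, c a = c b → a = b := fun a ha b _ hab =>
    (List.idxOf_inj ha).1 hab
  have gen : ∀ l l' : List Δ, (∀ a ∈ l, a ∈ D) → (∀ a ∈ l', a ∈ D) → l.map c = l'.map c →
      l = l' := by
    intro l
    induction l with
    | nil => intro l' _ _ hh; exact (List.map_eq_nil_iff.1 hh.symm).symm
    | cons a l ih =>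
      intro l' h1 h2 hh
      cases l' with
      | nil => simp at hh
      | cons b l' =>
        simp only [List.map_cons, List.cons.injEq] at hh
        rw [hinj a (h1 a List.mem_cons_self) b (h2 b List.mem_cons_self) hh.1,
          ih l' (fun x hx => h1 x (List.mem_cons_of_mem _ hx))
            (fun x hx => h2 x (List.mem_cons_of_mem _ hx)) hh.2]
  exact gen _ _ (fun a ha => List.mem_append_left _ ha) (fun a ha => List.mem_append_right _ ha)
    this

lemma language_letters {G : Grammar} {w : List ℕ} (hw : w ∈ language G) :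
    ∀ t ∈ w, Sum.inl t ∈ lets G := by
  have hat : ∀ (σ : List ℕ) (α : List Sym) (t : ℕ), Sum.inl t ∈ attach σ α → Sum.inl t ∈ α := by
    intro σ α t ht
    obtain ⟨x, hx, hxt⟩ := List.mem_map.1 ht
    cases x with
    | inl a => simp only [Sum.map_inl, id, Sum.inl.injEq] at hxt; rwa [← hxt]
    | inr B => simp at hxt
  have key : ∀ γ, Relation.ReflTransGen (Step G) [Sum.inr (G.1, [])] γ →
      ∀ t, Sum.inl t ∈ γ → Sum.inl t ∈ lets G := by
    intro γ h
    induction h with
    | refl => simp
    | tail _ hs ih =>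
      intro t ht
      cases hs with
      | plain u v A σ α hr =>
        simp only [List.mem_append] at ht ih
        rcases ht with (h | h) | h
        · exact ih t (Or.inl (Or.inl h))
        · exact List.mem_append_left _ (List.mem_flatMap.2 ⟨_, hr, hat σ α t h⟩)
        · exact ih t (Or.inr h)
      | push u v A B f σ hr =>
        simp only [List.mem_append] at ht ih
        rcases ht with (h | h) | h
        · exact ih t (Or.inl (Or.inl h))
        · simp at h
        · exact ih t (Or.inr h)
      | pop u v A f σ α hr =>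
        simp only [List.mem_append] at ht ih
        rcases ht with (h | h) | h
        · exact ih t (Or.inl (Or.inl h))
        · exact List.mem_append_right _ (List.mem_flatMap.2 ⟨_, hr, hat σ α t h⟩)
        · exact ih t (Or.inr h)
  exact fun t ht => key _ hw t (List.mem_map_of_mem ht)

lemma finite_short (G : Grammar) (B : ℕ) : {w | w ∈ language G ∧ w.length ≤ B}.Finite := by
  have h1 : {t : ℕ | Sum.inl t ∈ lets G}.Finite :=
    (List.finite_toSet (lets G)).preimage Sum.inl_injective.injOn
  have := h1.to_subtype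
  refine ((List.finite_length_le {t : ℕ | Sum.inl t ∈ lets G} B).image
    (List.map Subtype.val)).subset ?_
  rintro w ⟨hw, hl⟩
  exact ⟨w.attach.map fun x => ⟨x.1, language_letters hw _ x.2⟩,
    by rw [Set.mem_setOf_eq]; simpa using hl,
    by simp [Function.comp_def]⟩

theorem short_words_test (G : Grammar) : ∃ F : List (List ℕ),
    (∀ w, w ∈ F ↔ w ∈ language G ∧
      w.length ≤ ack (162 * (popNonterminals G).card + 33) (size G)) ∧
    IsTestSet F (language G) := by
  have hf := finite_short G (ack (162 * (popNonterminals G).card + 33) (size G))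
  have hm : ∀ w, w ∈ hf.toFinset.toList ↔ w ∈ language G ∧
      w.length ≤ ack (162 * (popNonterminals G).card + 33) (size G) := by simp
  exact ⟨_, hm, fun w hw => ((hm w).1 hw).1, fun Δ g h =>
    ⟨fun H w hw => H w ((hm w).1 hw).1,
      fun H => explicit_bound G Δ g h fun w h1 h2 => H w ((hm w).2 ⟨h1, h2⟩)⟩⟩

end Pool.Agent.P.MP_8ee1cf_lc.EB
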